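import Pool.Graph.R_pool_sql_team_seeded_620a6dc7.helper943_FA_.Centered

/-!
The forcing axiom for `ℵ₂` dense sets already fails for a proper `ℵ₁`-centered poset of finite
cliques of a graph with at most continuum many vertices.
-/

namespace Pool.Agent.KS6_11.FaCliq

open Cardinal Pool.Agent.helper943_FA

/-- The poset of all finite cliques of the graph `Γ`, ordered by reverse inclusion. -/
@[ext]
structure CliquePoset {V : Type} (Γ : SimpleGraph V) : Type where
  verts : Finset V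
  clique : Γ.IsClique (verts : Set V)

instance {V : Type} (Γ : SimpleGraph V) : PartialOrder (CliquePoset Γ) where
  le p q := q.verts ⊆ p.verts
  le_refl p := subset_rfl
  le_trans p q r h1 h2 := Finset.Subset.trans h2 h1
  le_antisymm p q h1 h2 := CliquePoset.ext (Finset.Subset.antisymm h2 h1)

theorem cle_def {V : Type} {Γ : SimpleGraph V} {p q : CliquePoset Γ} :
    p ≤ q ↔ q.verts ⊆ p.verts := Iff.rfl

/-! ### Transport along order isomorphisms -/

section Transport

variable {P Q : Type} [PartialOrder P] [PartialOrder Q]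

theorem dense_preimage (e : P ≃o Q) {D : Set Q} (hD : IsDenseSet D) : IsDenseSet (e ⁻¹' D) := by
  intro p
  obtain ⟨d, hd, hdp⟩ := hD (e p)
  refine ⟨e.symm d, by simpa using hd, ?_⟩
  rw [← e.le_iff_le]
  simpa using hdp

theorem fax_of_iso (e : P ≃o Q) (hQ : FAx Q) : FAx P := by
  intro ι D hι hD
  obtain ⟨G, hG, hGD⟩ := hQ ι (fun a => e.symm ⁻¹' D a) hι (fun a => dense_preimage e.symm (hD a))
  refine ⟨e ⁻¹' G, ⟨?_, ?_, ?_⟩, ?_⟩
  · obtain ⟨g, hg⟩ := hG.nonempty
    exact ⟨e.symm g, by simpa using hg⟩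
  · intro p hp q hpq
    exact hG.up (e p) hp (e q) (e.le_iff_le.2 hpq)
  · intro p hp q hq
    obtain ⟨t, ht, ht1, ht2⟩ := hG.dir (e p) hp (e q) hq
    refine ⟨e.symm t, by simpa using ht, ?_, ?_⟩
    · rw [← e.le_iff_le]; simpa using ht1
    · rw [← e.le_iff_le]; simpa using ht2
  · intro a
    obtain ⟨g, hg, hga⟩ := hGD a
    exact ⟨e.symm g, by simpa using hg, hga⟩

theorem centered_of_iso (e : P ≃o Q) (hP : Aleph1Centered P) : Aleph1Centered Q := by
  classical
  obtain ⟨κ, c, hκ, hc⟩ := hP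
  refine ⟨κ, fun q => c (e.symm q), hκ, ?_⟩
  intro F hF hcol
  obtain ⟨r, hr⟩ := hc (F.image e.symm) (hF.image _) (by
    intro p hp q hq
    obtain ⟨p', hp', rfl⟩ := Finset.mem_image.1 hp
    obtain ⟨q', hq', rfl⟩ := Finset.mem_image.1 hq
    exact hcol p' hp' q' hq')
  refine ⟨e r, fun p hp => ?_⟩
  have := hr (e.symm p) (Finset.mem_image_of_mem _ hp)
  rw [← e.le_iff_le] at this
  simpa using this

theorem proper_of_iso (e : P ≃o Q) (hP : IsProper P) : IsProper Q := by
  intro X i j hi hj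
  have hi' : Function.Injective (fun p : P => i (e p)) := fun a b hab => e.injective (hi hab)
  have hj' : Function.Injective (fun S : Set P => j (e '' S)) := fun a b hab =>
    e.injective.image_injective (hj hab)
  obtain ⟨C, hC, hgen⟩ := hP X _ _ hi' hj'
  refine ⟨C, hC, ?_⟩
  intro M hM q hq
  obtain ⟨p', hp', hg⟩ := hgen M hM (e.symm q) (by simpa using hq)
  refine ⟨e p', ?_, ?_⟩
  · rw [← e.le_iff_le] at hp'
    simpa using hp'
  · intro D hD hDM r hr
    have hr' : e.symm r ≤ p' := by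
      rw [← e.le_iff_le]
      simpa using hr
    obtain ⟨d, hd, hdM, t, ht1, ht2⟩ := hg (e ⁻¹' D) (dense_preimage e hD) (by
      have : e '' (e ⁻¹' D) = D := Set.image_preimage_eq D e.surjective
      simpa only [this] using hDM) (e.symm r) hr'
    refine ⟨e d, hd, hdM, e t, e.le_iff_le.2 ht1, ?_⟩
    rw [← e.le_iff_le] at ht2
    simpa using ht2

end Transport

/-! ### The posets `Cond h A` are clique posets -/

section Clique

variable {I J : Type} [LinearOrder I] (h : J → I → I) (A : I → J → Bool → Prop)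

theorem not_bad_self (a : Atom I J) : ¬ Bad a a := by
  cases a with
  | gap _ _ _ => exact fun hh => hh
  | side δ ν b x =>
    rintro (hh | hh)
    · exact lt_irrefl _ hh.1
    · exact hh.2 rfl

/-- The graph of the atoms which do not exclude each other. -/
def atomGraph : SimpleGraph {a : Atom I J // Valid h A a} where
  Adj a c := a ≠ c ∧ ¬ Bad a.1 c.1 ∧ ¬ Bad c.1 a.1
  symm := ⟨fun _ _ hh => ⟨hh.1.symm, hh.2.2, hh.2.1⟩⟩
  loopless := ⟨fun _ hh => hh.1 rfl⟩

/-- The isomorphism of `Cond h A` with the poset of finite cliques of `atomGraph h A`. -/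
noncomputable def condIso : Cond h A ≃o CliquePoset (atomGraph h A) where
  toFun p :=
    { verts := (p.fin.preimage Subtype.val_injective.injOn : ((Subtype.val :
        {a : Atom I J // Valid h A a} → Atom I J) ⁻¹' p.S).Finite).toFinset
      clique := by
        intro a ha c hc hac
        have ha' : a.1 ∈ p.S := by simpa using ha
        have hc' : c.1 ∈ p.S := by simpa using hc
        exact ⟨hac, p.ok _ ha' _ hc', p.ok _ hc' _ ha'⟩ }
  invFun s :=
    { S := Subtype.val '' (s.verts : Set {a : Atom I J // Valid h A a})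
      fin := s.verts.finite_toSet.image _
      val := by
        rintro _ ⟨a, -, rfl⟩
        exact a.2
      ok := by
        rintro _ ⟨a, ha, rfl⟩ _ ⟨c, hc, rfl⟩
        by_cases hac : a = c
        · rw [hac]; exact not_bad_self c.1
        · exact (s.clique ha hc hac).2.1 }
  left_inv p := by
    apply Cond.ext
    ext a
    constructor
    · rintro ⟨b, hb, rfl⟩
      simpa using hb
    · intro ha
      exact ⟨⟨a, p.val a ha⟩, by simpa using ha, rfl⟩
  right_inv s := by
    apply CliquePoset.ext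
    ext a
    simp
  map_rel_iff' := by
    intro p q
    change ((_ : Finset {a : Atom I J // Valid h A a}) ⊆ _) ↔ ((_ : Set (Atom I J)) ⊆ _)
    constructor
    · intro hh a ha
      have h1 : (⟨a, q.val a ha⟩ : {a : Atom I J // Valid h A a}) ∈
          (q.fin.preimage Subtype.val_injective.injOn : ((Subtype.val :
        {a : Atom I J // Valid h A a} → Atom I J) ⁻¹' q.S).Finite).toFinset := by simpa using ha
      simpa using hh h1
    · intro hh a ha
      have h1 : a.1 ∈ q.S := by simpa using ha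
      simpa using hh h1

variable {h A}

theorem mk_atom_le (hI : #I ≤ 𝔠) (hJ : #J ≤ 𝔠) : #{a : Atom I J // Valid h A a} ≤ 𝔠 := by
  classical
  have h1 : ℵ₀ ≤ (𝔠 : Cardinal.{0}) := aleph0_le_continuum
  -- enumerations of countable sets
  have hen : ∀ x : {x : Set J // x.Countable}, ∃ e : ℕ → Option J, ∀ α, α ∈ x.1 ↔ ∃ n, e n = some α := by
    rintro ⟨x, hx⟩
    rcases x.eq_empty_or_nonempty with rfl | hne
    · exact ⟨fun _ => none, by simp⟩
    · obtain ⟨e, he⟩ := hx.exists_eq_range hne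
      refine ⟨fun n => some (e n), fun α => ?_⟩
      change α ∈ x ↔ _
      rw [he]
      simp
  choose en hen using hen
  have hen_inj : Function.Injective en := by
    intro x y hxy
    apply Subtype.ext
    ext α
    rw [hen, hen, hxy]
  have hcount : #{x : Set J // x.Countable} ≤ 𝔠 := by
    refine (mk_le_of_injective hen_inj).trans ?_
    rw [mk_arrow]
    simp only [Cardinal.lift_id, mk_nat]
    calc #(Option J) ^ ℵ₀ ≤ 𝔠 ^ ℵ₀ := Cardinal.power_le_power_right (mk_option_le h1 hJ)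
      _ = 𝔠 := continuum_power_aleph0
  -- valid atoms
  let g : {a : Atom I J // Valid h A a} → (I × I × Bool × {x : Set J // x.Countable}) ⊕ (J × I × I) :=
    fun a => match a with
      | ⟨.side δ ν b x, hv⟩ => .inl (δ, ν, b, ⟨x, hv.1⟩)
      | ⟨.gap α ξ ζ, _⟩ => .inr (α, ξ, ζ)
  have hg : Function.Injective g := by
    rintro ⟨a, ha⟩ ⟨c, hc⟩ hac
    cases a <;> cases c <;> simp_all [g]
  have hB : #Bool ≤ 𝔠 := (mk_le_aleph0).trans h1
  exact (mk_le_of_injective hg).trans (mk_sum_le h1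
    (mk_prod_le h1 hI (mk_prod_le h1 hI (mk_prod_le h1 hB hcount)))
    (mk_prod_le h1 hJ (mk_prod_le h1 hI hI)))

end Clique

/-! ### Cohen forcing as a clique poset -/

section Cohen

/-- The finite cliques of this graph are the finite partial functions from `ℕ` to `Bool`. -/
def cohenGraph : SimpleGraph (ℕ × Bool) where
  Adj a c := a.1 ≠ c.1
  symm := ⟨fun _ _ hh => Ne.symm hh⟩
  loopless := ⟨fun _ hh => hh rfl⟩

instance : Countable (CliquePoset cohenGraph) :=
  Function.Injective.countable (f := CliquePoset.verts) (fun _ _ hh => CliquePoset.ext hh)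

theorem exists_insert_cohen (p : CliquePoset cohenGraph) (n : ℕ) (b : Bool)
    (hn : ∀ c, (n, c) ∉ p.verts) : ∃ q : CliquePoset cohenGraph, q ≤ p ∧ (n, b) ∈ q.verts := by
  classical
  refine ⟨⟨insert (n, b) p.verts, ?_⟩, ?_, ?_⟩
  · rw [Finset.coe_insert]
    refine p.clique.insert ?_
    rintro ⟨m, c⟩ hc -
    change n ≠ m
    rintro rfl
    exact hn c (by simpa using hc)
  · exact Finset.subset_insert _ _
  · exact Finset.mem_insert_self _ _

theorem many_reals' (hFA : FAx (CliquePoset cohenGraph)) : ℵ_ 2 < #(ℕ → Bool) := by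
  classical
  by_contra hcon
  rw [not_lt] at hcon
  let D : (ℕ → Bool) ⊕ ℕ → Set (CliquePoset cohenGraph) := fun a =>
    match a with
    | .inl x => {p | ∃ n b, (n, b) ∈ p.verts ∧ b ≠ x n}
    | .inr n => {p | ∃ b, (n, b) ∈ p.verts}
  obtain ⟨G, hG, hGD⟩ := hFA ((ℕ → Bool) ⊕ ℕ) D (by
    rw [mk_sum]
    simp only [Cardinal.lift_id, mk_nat]
    have h0 : ℵ₀ ≤ (ℵ_ 2 : Cardinal.{0}) := aleph0_le_aleph 2
    exact (add_le_add hcon h0).trans_eq (add_eq_self h0)) (by
    rintro (x | n) p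
    · obtain ⟨n, hn⟩ := Infinite.exists_notMem_finset (p.verts.image Prod.fst)
      obtain ⟨q, hqp, hq⟩ := exists_insert_cohen p n (!(x n)) (by
        intro c hc
        exact hn (Finset.mem_image_of_mem Prod.fst hc))
      exact ⟨q, ⟨n, _, hq, by simp⟩, hqp⟩
    · by_cases hex : ∃ b, (n, b) ∈ p.verts
      · exact ⟨p, hex, le_rfl⟩
      · push Not at hex
        obtain ⟨q, hqp, hq⟩ := exists_insert_cohen p n true hex
        exact ⟨q, ⟨true, hq⟩, hqp⟩)
  choose p hp using fun n : ℕ => hGD (.inr n)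
  choose y hy using fun n : ℕ => (hp n).2
  obtain ⟨q, hq, n, b, hn, hqn⟩ := hGD (.inl y)
  obtain ⟨t, -, ht1, ht2⟩ := hG.dir q hq (p n) (hp n).1
  have e1 : (n, b) ∈ t.verts := ht1 hn
  have e2 : (n, y n) ∈ t.verts := ht2 (hy n)
  have := t.clique (by exact_mod_cast e1) (by exact_mod_cast e2) (by simpa using hqn)
  exact this rfl

end Cohen

section Final

theorem no_FA_cond (hcoh : ℵ_ 2 < #(ℕ → Bool))
    (hFA : ∀ (I J : Type) [LinearOrder I] (h : J → I → I) (A : I → J → Bool → Prop),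
      #{a : Atom I J // Valid h A a} ≤ 𝔠 → IsProper (Cond h A) →
      Aleph1Centered (Cond h A) → FAx (Cond h A)) : False := by
  classical
  let I : Type := (ℵ_ 1).ord.ToType
  let J : Type := (ℵ_ 2).ord.ToType
  have hI : #I = ℵ_ 1 := mk_ord_toType _
  have hJ : #J = ℵ_ 2 := mk_ord_toType _
  have h12 : (ℵ_ 2 : Cardinal.{0}) = Order.succ (ℵ_ 1) := by
    rw [succ_aleph]
    congr 1
    norm_num
  have h01 : (ℵ_ 1 : Cardinal.{0}) = Order.succ ℵ₀ := by
    rw [← aleph_zero, succ_aleph]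
    congr 1
    norm_num
  have hI1 : ∀ δ : I, (Set.Iic δ).Countable := by
    intro δ
    have h1 : #(Set.Iio δ) < ℵ_ 1 := (mk_Iio_lt δ (by simp [I])).trans_eq hI
    have h2 : #(Set.Iio δ) ≤ ℵ₀ := Order.lt_succ_iff.1 (h1.trans_eq h01)
    rw [← Set.Iio_insert]
    exact (le_aleph0_iff_set_countable.1 h2).insert δ
  have hI2 : ∀ s : Set I, s.Countable → ∃ b, ∀ a ∈ s, a < b := by
    intro s hs
    by_contra! hcon
    have h1 : (⋃ a ∈ s, Set.Iic a) = Set.univ := by
      apply Set.eq_univ_of_forall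
      intro b
      obtain ⟨a, ha, hab⟩ := hcon b
      exact Set.mem_biUnion ha hab
    have h2 : (Set.univ : Set I).Countable := by
      rw [← h1]
      exact hs.biUnion (fun a _ => hI1 a)
    have h3 := le_aleph0_iff_set_countable.2 h2
    rw [mk_univ, hI] at h3
    exact absurd h3 (not_le.2 aleph0_lt_aleph_one)
  have hJI : ∀ α : J, #(Set.Iio α) ≤ #I := by
    intro α
    have h1 : #(Set.Iio α) < ℵ_ 2 := (mk_Iio_lt α (by simp [J])).trans_eq hJ
    exact (Order.lt_succ_iff.1 (h1.trans_eq h12)).trans_eq hI.symm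
  obtain ⟨h, ρ, hρ⟩ := exists_family hI1 hI2 hJI
  have hsep : ∀ (α : J) (x : Set J), x.Countable → α ∉ x → ∃ δ, ∀ β ∈ x, h β δ ≠ h α δ := by
    intro α x hx hα
    obtain ⟨δ, hδ⟩ := hI2 ((fun β => ρ β α) '' x) (hx.image _)
    exact ⟨δ, fun β hβ => hρ β α δ (fun hh => hα (hh ▸ hβ)) (hδ _ ⟨β, hβ, rfl⟩)⟩
  have hJc : #J ≤ 𝔠 := by
    rw [hJ]
    refine hcoh.le.trans_eq ?_
    simp
  obtain ⟨r⟩ : Nonempty (J ↪ (ℕ → Bool)) := (Cardinal.le_def _ _).1 (by rw [hJ]; exact hcoh.le)
  have hJne : Nonempty J := by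
    rw [← mk_ne_zero_iff, hJ]
    exact (aleph_pos 2).ne'
  -- the main consequence of the forcing axiom
  have main : ∀ A : I → J → Bool → Prop,
      (∀ (δ : I) (x : Set J), Set.InjOn (fun α => h α δ) x → ∃ b, ∀ α ∈ x, A δ α b) →
      ∃ G : Set (Cond h A), IsFilt G ∧ ∀ α, IsClubI (EE G α) := by
    intro A hA
    have hP : IsProper (Cond h A) := proper_cond hI1 hI2 ρ hρ hA
    have hcc : Aleph1Centered (Cond h A) := centered_cond hI.le hsep
    have hsize : #{a : Atom I J // Valid h A a} ≤ 𝔠 :=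
      mk_atom_le (hI.le.trans aleph_one_le_continuum) hJc
    let D : (J × I) ⊕ (J × I) → Set (Cond h A) := fun a =>
      match a with
      | .inl c => Dunb h A c.1 c.2
      | .inr c => Dcl h A c.1 c.2
    have hne : Nonempty (Cond h A) := ⟨⟨∅, Set.finite_empty, by simp, by simp⟩⟩
    obtain ⟨G, hG, hGD⟩ := hFA I J h A hsize hP hcc ((J × I) ⊕ (J × I)) D (by
      have h0 : ℵ₀ ≤ (ℵ_ 2 : Cardinal.{0}) := aleph0_le_aleph 2
      have h1 : #(J × I) ≤ ℵ_ 2 := mk_prod_le h0 hJ.le (hI.le.trans aleph1_le_aleph2)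
      exact mk_sum_le h0 h1 h1) (by
      rintro (⟨α, ξ⟩ | ⟨α, ξ⟩)
      · exact dunb_dense hI2 hA α ξ
      · exact dcl_dense α ξ)
    exact ⟨G, hG, fun α => club_EE hG (fun α ξ => hGD (.inl (α, ξ)))
      (fun α ξ => hGD (.inr (α, ξ))) α⟩
  -- the first filter bounds the heights
  obtain ⟨G₀, hG₀, hE₀⟩ := main (fun _ _ _ => True) (fun _ _ _ => ⟨true, fun _ _ => trivial⟩)
  have hg : ∀ δ : I, ∃ g : I, δ < g ∧ ∀ α, δ ∈ EE G₀ α → h α δ < g := by
    intro δ
    obtain ⟨g, ⟨p, hp, ν, b, x, hpx, -⟩, hδg⟩ := (hE₀ hJne.some).unb δ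
    refine ⟨g, hδg, ?_⟩
    rintro α ⟨p', hp', ν', b', x', hpx', hα'⟩
    have h1 : h α δ ≤ ν' := (p'.val _ hpx').2.2.1 α hα'
    have h2 := notBad_of_filter hG₀ hp' hp hpx' hpx
    refine h1.trans_lt ?_
    by_contra hcon
    exact h2 (Or.inl ⟨hδg, not_lt.1 hcon⟩)
  choose g hg1 hg2 using hg
  have hη : ∀ δ : I, ∃ η : ℕ → I, ∀ ζ < g δ, ∃ j, η j = ζ := by
    intro δ
    obtain ⟨η, hη⟩ := ((hI1 (g δ)).mono Set.Iio_subset_Iic_self).exists_eq_range ⟨δ, hg1 δ⟩
    refine ⟨η, fun ζ hζ => ?_⟩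
    have : ζ ∈ Set.range η := hη ▸ hζ
    exact this
  choose η hη using hη
  -- the filters deciding the bits
  have hbits : ∀ jm : ℕ × ℕ, ∃ G : Set (Cond h
      (fun δ α b => h α δ = η δ jm.1 → r α jm.2 = b)), IsFilt G ∧ ∀ α, IsClubI (EE G α) := by
    intro jm
    apply main
    intro δ x hx
    by_cases hex : ∃ α ∈ x, h α δ = η δ jm.1
    · obtain ⟨α, hα, hαη⟩ := hex
      refine ⟨r α jm.2, ?_⟩
      intro β hβ hβη
      rw [hx hβ hα (hβη.trans hαη.symm)]
    · exact ⟨true, fun α hα hαη => absurd ⟨α, hα, hαη⟩ hex⟩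
  choose G hG hE using hbits
  have hpt : ∀ α : J, ∃ δ : I, δ ∈ EE G₀ α ∧ ∀ jm, δ ∈ EE (G jm) α := by
    intro α
    obtain ⟨δ, hδ⟩ := inter_club hI2 (ι := Option (ℕ × ℕ))
      (fun o => match o with
        | none => EE G₀ α
        | some jm => EE (G jm) α) (by
      rintro (_ | jm)
      · exact hE₀ α
      · exact hE jm α)
    exact ⟨δ, hδ none, fun jm => hδ (some jm)⟩
  choose d hd1 hd2 using hpt
  -- an uncountable fibre
  have hfib : ∃ δ, ¬ {α | d α = δ}.Countable := by
    by_contra! hall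
    have h1 := small_iUnion hI.le (fun δ => {α | d α = δ}) (fun δ => small_of_countable (hall δ))
    have h2 : (⋃ δ, {α | d α = δ}) = Set.univ := by
      ext α; simp
    rw [h2, mk_univ, hJ, h12] at h1
    exact absurd (Order.lt_succ (ℵ_ 1 : Cardinal.{0})) (not_lt.2 h1)
  obtain ⟨δ, hδ⟩ := hfib
  apply hδ
  refine Set.MapsTo.countable_of_injOn (f := fun α => h α δ) (t := Set.Iio (g δ)) ?_ ?_
    ((hI1 _).mono Set.Iio_subset_Iic_self)
  · intro α hα
    have : d α = δ := hα
    exact hg2 δ α (this ▸ hd1 α)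
  · intro α hα β hβ hαβ
    have eα : d α = δ := hα
    have eβ : d β = δ := hβ
    have hhαβ : h α δ = h β δ := hαβ
    apply r.injective
    funext m
    obtain ⟨j, hj⟩ := hη δ (h α δ) (hg2 δ α (eα ▸ hd1 α))
    obtain ⟨p, hp, ν, b, x, hpx, hαx⟩ := eα ▸ hd2 α (j, m)
    obtain ⟨p', hp', ν', b', x', hpx', hβx⟩ := eβ ▸ hd2 β (j, m)
    have h1 : r α m = b := (p.val _ hpx).2.2.2 α hαx hj.symm
    have h2 : r β m = b' := (p'.val _ hpx').2.2.2 β hβx (hhαβ ▸ hj.symm)
    have h3 : b = b' := by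
      by_contra hne
      exact notBad_of_filter (hG (j, m)) hp hp' hpx hpx' (Or.inr ⟨rfl, hne⟩)
    rw [h1, h2, h3]

/-- The contradiction, from the forcing axiom for proper `ℵ₁`-centered posets of finite cliques of
graphs with at most continuum many vertices. -/
theorem no_FA_clique (hFA : ∀ (V : Type) (Γ : SimpleGraph V), #V ≤ 𝔠 →
    Aleph1Centered (CliquePoset Γ) → IsProper (CliquePoset Γ) → FAx (CliquePoset Γ)) : False := by
  refine no_FA_cond (many_reals' (hFA _ cohenGraph (mk_le_aleph0.trans aleph0_le_continuum)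
    (centered_of_countable _) (proper_of_countable _))) ?_
  intro I J _ h A hV hP hc
  exact fax_of_iso (condIso h A) (hFA _ _ hV (centered_of_iso (condIso h A) hc)
    (proper_of_iso (condIso h A) hP))

end Final

end Pool.Agent.KS6_11.FaCliq
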